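import Pool.Agent.U409.OA.Stm3

set_option autoImplicit false

/-! Project OA, package T. -/

namespace Pool.Agent.U208.OA

open Finset Pool.Agent.U409.OA

theorem PP_succ (a : ℚ) (k : ℕ) : PP a (k + 1) = PP a k * (a + k) := by
  unfold PP
  rw [prod_range_succ]

theorem PP_succ' (a : ℚ) (k : ℕ) : PP a (k + 1) = a * PP (a + 1) k := by
  unfold PP
  rw [prod_range_succ', mul_comm]
  congr 1
  · simp
  · refine prod_congr rfl fun i _ => ?_
    push_cast
    ring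

theorem PP_pos {a : ℚ} (ha : 0 < a) (k : ℕ) : 0 < PP a k := by
  unfold PP
  exact prod_pos fun i _ => by positivity

theorem L1 (K s : ℕ) (hs : s ≤ K) :
    PP (4 / 3) K = PP (4 / 3) (K - s) * ((-1) ^ s * PP (-(K : ℚ) - 1 / 3) s) := by
  induction s with
  | zero => simp [PP]
  | succ s ih =>
    rw [ih (by omega)]
    have e : K - s = (K - (s + 1)) + 1 := by omega
    have e2 : (((K - (s + 1) : ℕ)) : ℚ) = K - (s + 1) := by
      rw [Nat.cast_sub hs]
      push_cast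
      ring
    rw [e, PP_succ, PP_succ, e2, pow_succ]
    ring

theorem L4 (k : ℕ) : PP (2 / 3 - k) k = (-1) ^ k * PP (1 / 3) k := by
  induction k with
  | zero => simp [PP]
  | succ k ih =>
    rw [PP_succ', PP_succ]
    have e : (2 / 3 - ((k + 1 : ℕ) : ℚ) + 1) = 2 / 3 - k := by
      push_cast
      ring
    rw [e, ih, pow_succ]
    push_cast
    ring

theorem L5 (K : ℕ) : PP (1 / 3) K * (1 / 3 + K) = 1 / 3 * PP (4 / 3) K := by
  have h1 := PP_succ (1 / 3) K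
  have h2 := PP_succ' (1 / 3) K
  have e : (1 / 3 + 1 : ℚ) = 4 / 3 := by norm_num
  rw [e] at h2
  rw [← h1, h2]

theorem L7 (n : ℕ) : PP (-(n : ℚ) - 1 / 6) (2 * n + 1) =
    -(1 / 6) * (-1) ^ n / 36 ^ n * ∏ i ∈ Icc 1 n, ((6 * i - 1 : ℚ) * (6 * i + 1)) := by
  induction n with
  | zero => simp [PP]
  | succ n ih =>
    have e1 : 2 * (n + 1) + 1 = (2 * n + 1 + 1) + 1 := by ring
    have e2 : (-((n + 1 : ℕ) : ℚ) - 1 / 6 + 1) = -(n : ℚ) - 1 / 6 := by
      push_cast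
      ring
    rw [e1, PP_succ', e2, PP_succ, ih, prod_Icc_succ_top (by omega)]
    push_cast
    field_simp
    ring

theorem t_T (hU : S_U) (hTAU : S_TAU) : S_T := by
  intro n
  obtain ⟨K, hK⟩ : ∃ K, K = 2 * n + 1 := ⟨_, rfl⟩
  obtain ⟨a, ha⟩ : ∃ a : ℚ, a = -(K : ℚ) - 1 / 3 := ⟨_, rfl⟩
  have hKq : (K : ℚ) = 2 * n + 1 := by
    rw [hK]
    push_cast
    ring
  have hai : ∀ i : ℤ, a ≠ i := by
    intro i hi
    rw [ha] at hi
    have h1 : (-(3 * (K : ℤ)) - 1 : ℤ) = 3 * i := by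
      have : (-(3 * (K : ℚ)) - 1) = 3 * (i : ℚ) := by
        rw [← hi]
        ring
      exact_mod_cast this
    omega
  have ha0 : a ≠ 0 := by
    have := hai 0
    simpa using this
  have hUK := hU a hai K
  have e23 : 1 + a + K = 2 / 3 := by
    rw [ha]
    ring
  rw [e23] at hUK
  have hodd : (-1 : ℚ) ^ K = -1 := by
    rw [hK, pow_succ, pow_mul]
    norm_num
  have hP43 : PP (4 / 3) K ≠ 0 := (PP_pos (by norm_num) K).ne'
  have hKf : ((K.factorial : ℕ) : ℚ) ≠ 0 := by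
    exact_mod_cast K.factorial_ne_zero
  rw [hTAU n]
  have hsum : ∑ s ∈ range (2 * n + 2),
      3 * (-1) ^ n / 9 ^ (2 * n + 1) * ((-1 : ℚ) ^ (2 * n + 1 - s) * (2 * s - (2 * n + 1) - 1 / 3) /
      ((s.factorial : ℚ) * ((2 * n + 1 - s).factorial : ℚ) * PP (2 / 3) s *
        PP (4 / 3) (2 * n + 1 - s))) =
      3 * (-1) ^ n / 9 ^ K * ((-1) ^ K * a / (K.factorial * PP (4 / 3) K)) *
        ∑ s ∈ range (K + 1), (K.choose s : ℚ) * PP a s * (a + 2 * s) / (a * PP (2 / 3) s) := by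
    rw [mul_sum]
    have hr : 2 * n + 2 = K + 1 := by omega
    rw [hr]
    refine sum_congr rfl fun s hs => ?_
    have hsK : s ≤ K := by
      have := mem_range.1 hs
      omega
    rw [← hK]
    have h1 := L1 K s hsK
    rw [← ha] at h1
    have h2 : ((K.choose s : ℕ) : ℚ) * (s.factorial : ℚ) * ((K - s).factorial : ℚ) =
        (K.factorial : ℚ) := by
      exact_mod_cast Nat.choose_mul_factorial_mul_factorial hsK
    have h3 : PP (4 / 3) (K - s) ≠ 0 := (PP_pos (by norm_num) _).ne'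
    have h4 : PP (2 / 3) s ≠ 0 := (PP_pos (by norm_num) _).ne'
    have h5 : ((s.factorial : ℕ) : ℚ) ≠ 0 := by exact_mod_cast s.factorial_ne_zero
    have h6 : (((K - s).factorial : ℕ) : ℚ) ≠ 0 := by exact_mod_cast (K - s).factorial_ne_zero
    have h7 : PP a s ≠ 0 := by
      intro h0
      rw [h0] at h1
      apply hP43
      rw [h1]
      ring
    have h8 : ((K.choose s : ℕ) : ℚ) ≠ 0 := by
      exact_mod_cast (Nat.choose_pos hsK).ne'
    have h9 : (2 * (s : ℚ) - (2 * n + 1) - 1 / 3) = a + 2 * s := by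
      rw [ha, hKq]
      ring
    have h10 : (-1 : ℚ) ^ K = (-1) ^ (K - s) * (-1) ^ s := by
      rw [← pow_add]
      congr 1
      omega
    have h11 : ((-1 : ℚ) ^ s) * (-1) ^ s = 1 := by
      rw [← mul_pow]
      norm_num
    rw [h9, h10, h1, ← h2]
    have h12 : ((-1 : ℚ) ^ s) ≠ 0 := pow_ne_zero _ (by norm_num)
    field_simp
  rw [hsum, hUK, hodd]
  -- the evaluation
  have hL4 := L4 K
  rw [hodd] at hL4
  have e1 : 1 + a = 2 / 3 - K := by
    rw [ha]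
    ring
  have e2 : (1 + a) / 2 = -(n : ℚ) - 1 / 6 := by
    rw [e1, hKq]
    ring
  rw [e2, e1, hL4]
  have hL7 := L7 n
  rw [← hK] at hL7
  rw [hL7]
  have hL5 := L5 K
  have hK0 : (1 / 3 + (K : ℚ)) ≠ 0 := by positivity
  have h13 : PP (1 / 3) K = 1 / 3 * PP (4 / 3) K / (1 / 3 + K) := by
    rw [eq_div_iff hK0]
    exact hL5
  have hprod : ∏ i ∈ Icc 1 n, ((6 * i - 1 : ℚ) * (6 * i + 1)) ≠ 0 := by
    rw [prod_ne_zero_iff]
    intro i hi
    have h1 : 1 ≤ i := (mem_Icc.1 hi).1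
    have h2 : (1 : ℚ) ≤ i := by exact_mod_cast h1
    have h3 : (0 : ℚ) < 6 * i - 1 := by linarith
    have h4 : (0 : ℚ) < 6 * i + 1 := by linarith
    positivity
  obtain ⟨W, hW⟩ : ∃ W, W = ∏ i ∈ Icc 1 n, ((6 * i - 1 : ℚ) * (6 * i + 1)) := ⟨_, rfl⟩
  rw [← hW] at hprod ⊢
  have ha' : a = -(1 / 3 + K) := by
    rw [ha]
    ring
  rw [h13, ha', ← hK]
  have h9 : (9 : ℚ) ^ K = 9 * 81 ^ n := by
    rw [hK, pow_succ, pow_mul]
    norm_num
    ring
  have h49 : (4 / 9 : ℚ) ^ n = 36 ^ n / 81 ^ n := by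
    rw [← div_pow]
    norm_num
  have hm : (-1 : ℚ) ^ n * (-1) ^ n = 1 := by
    rw [← mul_pow]
    norm_num
  have hm0 : ((-1 : ℚ) ^ n) ≠ 0 := pow_ne_zero _ (by norm_num)
  rw [h9, h49]
  field_simp
  ring

end Pool.Agent.U208.OA
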